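import Mathlib

set_option autoImplicit false
open Polynomial Filter Set Topology Matrix

namespace Pool.Agent.H.MP_eaea0b_co

def NR (p : ℝ[X]) : Prop := ∀ z : ℂ, 0 < z.im → aeval z p ≠ 0

def Sg (p g : ℝ[X]) : Prop := g = 0 ∨ ∀ z : ℂ, 0 < z.im → (aeval z g / aeval z p).im < 0

lemma aev (p : ℝ[X]) (x : ℝ) : aeval (x : ℂ) p = ((p.eval x : ℝ) : ℂ) :=
  aeval_algebraMap_apply_eq_algebraMap_eval x p

lemma anti {p g : ℝ[X]} (h : ∀ z : ℂ, 0 < z.im → (aeval z g / aeval z p).im ≤ 0) {y : ℝ}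
    (hp : ∀ x > y, 0 < p.eval x) : AntitoneOn (fun x => g.eval x / p.eval x) (Ioi y) := by
  have k : ∀ x > y, ∃ d ≤ 0, HasDerivAt (fun x => g.eval x / p.eval x) d x := fun x hx => by
    have a := ((g.hasDerivAt_aeval (x : ℂ)).div (p.hasDerivAt_aeval (x : ℂ))
      (by rw [aev]; exact_mod_cast (hp x hx).ne'))
    generalize (_ / aeval (x : ℂ) p ^ 2 : ℂ) = d at a
    refine ⟨d.re, ?_, by simpa [aev, ← Complex.ofReal_div] using a.real_of_complex⟩
    have b : HasDerivAt (fun t : ℝ => (x : ℂ) + t * Complex.I) Complex.I 0 := by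
      simpa using ((Complex.ofRealCLM.hasDerivAt (x := 0)).mul_const Complex.I).const_add (x : ℂ)
    have c := Complex.imCLM.hasFDerivAt.comp_hasDerivAt (0 : ℝ)
      (HasDerivAt.scomp_of_eq (0 : ℝ) a b (by simp))
    have e := c.tendsto_slope_zero_right
    simp only [Complex.imCLM_apply, smul_eq_mul, Complex.I_mul_im] at e
    refine le_of_tendsto e (eventually_nhdsWithin_of_forall fun t ht => ?_)
    refine mul_nonpos_of_nonneg_of_nonpos (inv_nonneg.2 (le_of_lt ht)) ?_
    have := h (x + t * Complex.I) (by simpa using ht)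
    simpa [aev, ← Complex.ofReal_div] using this
  choose! d d0 hd using k
  refine antitoneOn_of_deriv_nonpos (convex_Ioi y)
    (fun x hx => (hd x hx).continuousAt.continuousWithinAt) (fun x hx => ?_) fun x hx => ?_
  all_goals rw [interior_Ioi] at hx
  · exact (hd x hx).differentiableAt.differentiableWithinAt
  · rw [(hd x hx).deriv]; exact d0 x hx

lemma nn {p g : ℝ[X]} (hd : g.degree < p.degree) {y : ℝ}
    (h : AntitoneOn (fun x => g.eval x / p.eval x) (Ioi y)) (hp : ∀ x > y, 0 < p.eval x) :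
    ∀ x > y, 0 ≤ g.eval x := fun x hx => by
  have : 0 ≤ g.eval x / p.eval x := le_of_tendsto (div_tendsto_atTop_zero_of_degree_lt g p hd)
    ((eventually_ge_atTop x).mono fun t ht => h hx (hx.trans_le ht) ht)
  exact (div_nonneg_iff.1 this).elim (·.1) fun c => absurd c.2 (hp x hx).not_ge

lemma evp {p : ℝ[X]} (h : 0 < p.leadingCoeff) : ∃ y, ∀ x > y, 0 < p.eval x := by
  have := (isEquivalent_atTop_lead p).eventually_pos ((eventually_gt_atTop 0).mono fun x hx => by
    positivity)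
  obtain ⟨y, hy⟩ := eventually_atTop.1 this
  exact ⟨y, fun x hx => hy x hx.le⟩

lemma sgn {p g : ℝ[X]} (hm : p.Monic) (hd : g.degree < p.degree)
    (h0 : ∀ᶠ x in atTop, 0 ≤ g.eval x) (h : ∀ s : ℝ, NR (p - s • g)) : Sg p g := by
  refine or_iff_not_imp_left.2 fun g0 => ?_
  have p0 : NR p := by simpa using h 0
  obtain ⟨U, hU⟩ : ∃ U : Set ℂ, U = {z | 0 < z.im} := ⟨_, rfl⟩
  have m : ∀ z, z ∈ U ↔ 0 < z.im := by simp [hU]
  have o : IsOpen U := hU ▸ isOpen_lt continuous_const Complex.continuous_im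
  have pc : IsPreconnected U := hU ▸ (convex_halfSpace_im_gt 0).isPreconnected
  have an : DifferentiableOn ℂ (fun z : ℂ => aeval z g / aeval z p) U := fun z hz =>
    ((g.hasDerivAt_aeval z).div (p.hasDerivAt_aeval z)
      (p0 z ((m z).1 hz))).differentiableAt.differentiableWithinAt
  have r : ∀ z ∈ U, ∀ t : ℝ, aeval z g / aeval z p = t → t = 0 := fun z hz t e => by
    by_contra t0
    refine h t⁻¹ z ((m z).1 hz) ?_
    rw [div_eq_iff (p0 z ((m z).1 hz))] at e
    have : (t : ℂ) ≠ 0 := by exact_mod_cast t0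
    simp [e, this]
  obtain ⟨y, hy⟩ := evp (p := p) (by simp [hm])
  have z1 : (∀ z : ℂ, 0 < z.im → 0 ≤ (aeval z g / aeval z p).im) → False := fun a => by
    have b := nn (g := -g) (by simpa) (anti (fun z hz => by simpa [neg_div] using a z hz) hy) hy
    obtain ⟨y', hy'⟩ := eventually_atTop.1 (h0.and (eventually_gt_atTop y))
    exact g0 (eq_zero_of_infinite_isRoot _ ((Ici_infinite y').mono fun x hx =>
      le_antisymm (by simpa using b x (hy' x hx).2) (hy' x hx).1))
  have ne : ∀ z ∈ U, (aeval z g / aeval z p).im ≠ 0 := fun z hz e => by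
    rcases (an.analyticOnNhd o).is_constant_or_isOpen pc with ⟨w, hw⟩ | a
    · exact z1 fun u hu => by rw [hw u ((m u).2 hu), ← hw z hz, e]
    · have b := (a U le_rfl o).mem_nhds ⟨z, hz, rfl⟩
      have c : aeval z g / aeval z p = ((aeval z g / aeval z p).re : ℝ) :=
        Complex.ext rfl (by simpa using e)
      rw [r z hz _ c] at c
      simp only [c] at b
      obtain ⟨t, ⟨u, hu, e1⟩, t0⟩ := ((Complex.continuous_ofReal.continuousAt.eventually
        b).filter_mono nhdsWithin_le_nhds |>.and (self_mem_nhdsWithin (s := {0}ᶜ))).exists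
      exact t0 (r u hu t e1)
  intro z hz
  by_contra! c
  refine z1 fun u hu => le_of_not_gt fun d => ?_
  obtain ⟨v, hv, e⟩ := pc.intermediate_value ((m u).2 hu) ((m z).2 hz)
    (Complex.continuous_im.comp_continuousOn an.continuousOn) ⟨d.le, c⟩
  exact ne v hv e

lemma Sg.le {p g : ℝ[X]} (h : Sg p g) (z : ℂ) (hz : 0 < z.im) : (aeval z g / aeval z p).im ≤ 0 :=
  h.elim (fun e => by simp [e]) fun e => (e z hz).le

lemma comb {p g g' : ℝ[X]} (hp : NR p) (h : Sg p g) (h' : Sg p g') {a b : ℝ} (ha : 0 ≤ a)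
    (hb : 0 ≤ b) : NR (p - (a • g + b • g')) := fun z hz e => by
  have k : ∀ {g : ℝ[X]} {a : ℝ}, Sg p g → a * (aeval z g / aeval z p).im = 0 →
      a * (aeval z g / aeval z p) = 0 := fun h e => by
    rcases h with rfl | h
    · simp
    · simp [(mul_eq_zero.1 e).resolve_right (h z hz).ne]
  have e1 : a * (aeval z g / aeval z p) + b * (aeval z g' / aeval z p) = 1 := by
    have := hp z hz
    simp only [map_sub, map_add, map_smul, Complex.real_smul, sub_eq_zero] at e
    field_simp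
    exact e.symm
  have e2 := congrArg Complex.im e1
  simp only [Complex.add_im, Complex.im_ofReal_mul, Complex.one_im] at e2
  have u := mul_nonpos_of_nonneg_of_nonpos ha (h.le z hz)
  have v := mul_nonpos_of_nonneg_of_nonpos hb (h'.le z hz)
  rw [k h (by linarith), k h' (by linarith)] at e1
  simp at e1

lemma sel {p g g' : ℝ[X]} (hm : p.Monic) (h : Sg p g) (h' : Sg p g') (d : g.degree < p.degree)
    (d' : g'.degree < p.degree) {a ρ : ℝ} (ha : 0 ≤ a) (hb : a ≤ 1)
    (F : ∀ x > ρ, 0 < (p - ((1 - a) • g + a • g')).eval x) :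
    (∀ x > ρ, 0 < (p - g).eval x) ∨ ∀ x > ρ, 0 < (p - g').eval x := by
  simp only [eval_sub, eval_add, eval_smul, smul_eq_mul] at F ⊢
  have hp : ∀ x > ρ, 0 < p.eval x := by
    by_contra c
    obtain ⟨U, hU⟩ : ∃ U : Set ℝ, U = {y | ∀ x > y, 0 < p.eval x} := ⟨_, rfl⟩
    have ne : U.Nonempty := hU ▸ evp (by simp [hm])
    have mU : ∀ y, y ∈ U ↔ ∀ x > y, 0 < p.eval x := by simp [hU]
    have lb : ρ ∈ lowerBounds U := fun y hy => le_of_not_gt fun l =>
      c fun x hx => (mU y).1 hy x (l.trans hx)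
    have m : ∀ x > sInf U, 0 < p.eval x := fun x hx => by
      obtain ⟨y, hy, l⟩ := exists_lt_of_csInf_lt ne hx
      exact (mU y).1 hy x l
    have l : ρ < sInf U := (le_csInf ne lb).lt_of_ne fun e => c (e ▸ m)
    have k : ∀ {g : ℝ[X]}, Sg p g → g.degree < p.degree → 0 ≤ g.eval (sInf U) := fun {g} h d =>
      ge_of_tendsto (g.continuous.continuousWithinAt (s := Ioi (sInf U)))
        (eventually_nhdsWithin_of_forall (nn d (anti h.le m) m))
    have q : 0 < p.eval (sInf U) := by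
      nlinarith [F _ l, mul_nonneg (sub_nonneg.2 hb) (k h d), mul_nonneg ha (k h' d')]
    obtain ⟨e, e0, he⟩ := Metric.eventually_nhds_iff.1
      (p.continuous.continuousAt.eventually (lt_mem_nhds q))
    have : sInf U - e ∈ U := (mU _).2 fun x hx => (lt_or_ge (sInf U) x).elim (m x) fun l =>
      he (by rw [Real.dist_eq, abs_lt]; constructor <;> linarith)
    linarith [csInf_le ⟨ρ, lb⟩ this]
  by_contra! c
  obtain ⟨⟨x, hx, e⟩, y, hy, e'⟩ := c
  have k : ∀ {g : ℝ[X]} {x u : ℝ}, Sg p g → ρ < u → u ≤ x → p.eval x - g.eval x ≤ 0 →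
      p.eval u ≤ g.eval u := fun {g x u} h hu l e => by
    have := anti h.le hp hu (hu.trans_le l) l
    rw [← one_le_div (hp u hu)]
    exact ((one_le_div (hp x (hu.trans_le l))).2 (by linarith)).trans this
  have u := lt_min hx hy
  nlinarith [F _ u, mul_le_mul_of_nonneg_left (k h u (min_le_left _ _) e) (sub_nonneg.2 hb),
    mul_le_mul_of_nonneg_left (k h' u (min_le_right _ _) e') ha]

end Pool.Agent.H.MP_eaea0b_co
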