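import Pool.Agent.H.MP_eaea0b_co.A

set_option autoImplicit false
open Polynomial Filter Set Topology Matrix Equiv

namespace Pool.Agent.H.MP_eaea0b_co

variable {ι K Cl Γ : Type} [Fintype ι] [DecidableEq ι] [Fintype K] [DecidableEq K]

lemma det_r1 (M : Matrix ι ι ℝ) (u : ι → ℝ) (s : ℝ) :
    (M + s • vecMulVec u u).charpoly =
      M.charpoly - s • (M.charpoly - (M + vecMulVec u u).charpoly) := by
  refine eq_of_infinite_eval_eq _ _ (Infinite.mono (fun x hx => ?_)
    (M.charpoly.roots.toFinset.finite_toSet.infinite_compl))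
  have h : IsUnit (scalar ι x - M).det := by
    rw [← eval_charpoly, isUnit_iff_ne_zero]
    simpa [M.charpoly_monic.ne_zero] using hx
  have k : ∀ t : ℝ, (M + t • vecMulVec u u).charpoly.eval x = (scalar ι x - M).det *
      (1 - t * (u ⬝ᵥ (scalar ι x - M)⁻¹ *ᵥ u)) := fun t => by
    rw [eval_charpoly, ← sub_sub, sub_eq_add_neg, ← neg_smul, ← smul_vecMulVec,
      vecMulVec_eq Unit, det_add_replicateCol_mul_replicateRow h]
    congr 1
    rw [det_unique, ← replicateRow_vecMul, Matrix.add_apply, replicateRow_mul_replicateCol_apply,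
      dotProduct_mulVec]
    simp [sub_eq_add_neg]
  have := k 1
  rw [one_smul] at this
  simp only [mem_setOf_eq, eval_sub, eval_smul, k, this, smul_eq_mul]
  rw [eval_charpoly]; ring

lemma r1_pos (M : Matrix ι ι ℝ) (u : ι → ℝ) :
    ∀ᶠ x in atTop, 0 ≤ (M.charpoly - (M + vecMulVec u u).charpoly).eval x := by
  by_cases h : u = 0
  · simp [h]
  obtain ⟨i, hi⟩ := Function.ne_iff.1 h
  have : Nonempty ι := ⟨i⟩
  obtain ⟨g, hg⟩ : ∃ g, g = M.charpoly - (M + vecMulVec u u).charpoly := ⟨_, rfl⟩
  have c : 0 < g.coeff (Fintype.card ι - 1) := by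
    have a := trace_eq_neg_charpoly_coeff M
    have b := trace_eq_neg_charpoly_coeff (M + vecMulVec u u)
    rw [trace_add, trace_vecMulVec] at b
    have : 0 < u ⬝ᵥ u := (dotProduct_self_star_pos_iff (v := u)).2 h
    rw [hg, coeff_sub]; linarith
  have d : g.degree < Fintype.card ι := by
    rw [hg, ← M.charpoly_degree_eq_dim]
    exact degree_sub_lt (by simp only [charpoly_degree_eq_dim]) M.charpoly_monic.ne_zero
      (by simp only [Monic.leadingCoeff, charpoly_monic])
  have e : g.natDegree = Fintype.card ι - 1 := natDegree_eq_of_le_of_coeff_ne_zero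
    (Nat.le_sub_one_of_lt ((natDegree_lt_iff_degree_lt (by rintro rfl; simp at c)).2 d)) c.ne'
  obtain ⟨y, hy⟩ := evp (p := g) (by rwa [leadingCoeff, e])
  exact hg ▸ (eventually_gt_atTop y).mono fun x hx => (hy x hx).le

inductive DL (L : Matrix ι K ℝ) (c : K → Cl) : (Matrix K K ℝ → ℝ[X]) → Prop
  | base : DL L c fun A => (L * A * Lᵀ).charpoly
  | step (P : Matrix K K ℝ → ℝ[X]) (x y : K) (a : ℝ) : DL L c P → c x = c y → 0 ≤ a → a ≤ 1 →
      DL L c fun A => (1 - a) • P A + a • P (A.submatrix (swap x y) (swap x y))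

lemma split (A : Matrix K K ℝ) (h : A.IsSymm) (x y : K) : ∃ M : Matrix K K ℝ, M.IsSymm ∧
    (∃ u, A = M + vecMulVec u u) ∧ ∃ v, A.submatrix (swap x y) (swap x y) = M + vecMulVec v v := by
  obtain ⟨w, hw⟩ : ∃ w : K → ℝ, ∀ (F : K → ℝ) i, F (swap x y i) = F i - w i * (F x - F y) := by
    refine ⟨Pi.single x 1 - Pi.single y 1, fun F i => ?_⟩
    by_cases a : x = y
    · simp [a]
    rw [swap_apply_def]
    split_ifs with b d <;> simp [*, Pi.single_apply, Ne.symm a]
  obtain ⟨z, hz⟩ : ∃ z : K → ℝ, ∀ i, z i = (A x i - A y i -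
    (A x x - A y x - (A x y - A y y)) / 2 * w i) / 2 := ⟨_, fun _ => rfl⟩
  refine ⟨A - vecMulVec (w + z) (w + z), h.sub (by ext; simp [vecMulVec_apply, mul_comm]),
    ⟨w + z, by simp⟩, w - z, ?_⟩
  ext i j
  simp only [submatrix_apply, Matrix.add_apply, Matrix.sub_apply, vecMulVec_apply, Pi.add_apply,
    Pi.sub_apply, hz]
  rw [hw (fun i => A i (swap x y j)), hw (A i), hw (A x), hw (A y), h.apply x i, h.apply y i,
    h.apply x y]
  ring

variable {L : Matrix ι K ℝ} {c : K → Cl} {P : Matrix K K ℝ → ℝ[X]}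

lemma DL.mon (h : DL L c P) (A : Matrix K K ℝ) : (P A).IsMonicOfDegree (Fintype.card ι) := by
  induction h generalizing A with
  | base => exact ⟨charpoly_natDegree_eq_dim _, charpoly_monic _⟩
  | step P x y a _ _ _ _ ih =>
    have u := (isMonicOfDegree_iff _ _).1 (ih A)
    have v := (isMonicOfDegree_iff _ _).1 (ih (A.submatrix (swap x y) (swap x y)))
    refine (isMonicOfDegree_iff _ _).2 ⟨(natDegree_add_le _ _).trans (max_le
      ((natDegree_smul_le _ _).trans u.1) ((natDegree_smul_le _ _).trans v.1)), ?_⟩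
    simp [u.2, v.2]

lemma DL.aff (h : DL L c P) (A : Matrix K K ℝ) (v : K → ℝ) : ∃ g : ℝ[X],
    (∀ᶠ x in atTop, 0 ≤ g.eval x) ∧ ∀ s : ℝ, P (A + s • vecMulVec v v) = P A - s • g := by
  induction h generalizing A v with
  | base =>
    refine ⟨_, r1_pos (L * A * Lᵀ) (L *ᵥ v), fun s => ?_⟩
    beta_reduce
    rw [← det_r1, Matrix.mul_add, Matrix.add_mul, Matrix.mul_smul, Matrix.smul_mul,
      mul_vecMulVec, vecMulVec_mul, vecMul_transpose]
  | step P x y a _ _ a0 a1 ih =>
    obtain ⟨g, g0, hg⟩ := ih A v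
    obtain ⟨g', g0', hg'⟩ := ih (A.submatrix (swap x y) (swap x y)) (v ∘ swap x y)
    refine ⟨(1 - a) • g + a • g', (g0.and g0').mono fun t ht => ?_, fun s => ?_⟩
    · simpa using add_nonneg (mul_nonneg (sub_nonneg.2 a1) ht.1) (mul_nonneg a0 ht.2)
    · have : (A + s • vecMulVec v v).submatrix (swap x y) (swap x y) = A.submatrix (swap x y)
        (swap x y) + s • vecMulVec (v ∘ swap x y) (v ∘ swap x y) := rfl
      simp only [this, hg, hg']
      module

lemma DL.sg (h : DL L c P) (r : ∀ A : Matrix K K ℝ, A.IsSymm → NR (P A)) {M : Matrix K K ℝ}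
    (m : M.IsSymm) (u : K → ℝ) : ∃ g, Sg (P M) g ∧ g.degree < (P M).degree ∧
      P (M + vecMulVec u u) = P M - g := by
  obtain ⟨g, g0, hg⟩ := h.aff M u
  have e := hg 1
  simp only [one_smul] at e
  have d : g.degree < (P M).degree := by
    rw [show g = P M - P (M + vecMulVec u u) by rw [e]; ring]
    exact degree_sub_lt (by rw [degree_eq_natDegree (h.mon _).monic.ne_zero, degree_eq_natDegree
      (h.mon _).monic.ne_zero, (h.mon _).natDegree_eq, (h.mon _).natDegree_eq]) (h.mon _).monic.ne_zero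
      (by rw [(h.mon _).monic, (h.mon _).monic])
  exact ⟨g, sgn (h.mon _).monic d g0 fun s => hg s ▸ r _
    (m.add (IsSymm.smul (by ext; simp [vecMulVec_apply, mul_comm]) _)), d, e⟩

lemma DL.nr (h : DL L c P) (A : Matrix K K ℝ) (m : A.IsSymm) : NR (P A) := by
  induction h generalizing A with
  | base =>
    have : (L * A * Lᵀ).IsHermitian := by
      simpa using isHermitian_mul_mul_conjTranspose L (isHermitian_iff_isSymm.2 m)
    intro z hz
    simp only [this.charpoly_eq, map_prod, map_sub, aeval_X, aeval_C]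
    refine Finset.prod_ne_zero_iff.2 fun i _ e => ?_
    simpa [hz.ne'] using congrArg Complex.im e
  | step P x y a h _ a0 a1 ih =>
    obtain ⟨M, hM, ⟨u, hu⟩, v, hv⟩ := split A m x y
    obtain ⟨g, s, -, e⟩ := h.sg ih hM u
    obtain ⟨g', s', -, e'⟩ := h.sg ih hM v
    have := comb (ih M hM) s s' (sub_nonneg.2 a1) a0
    simp only [hv, e']
    rw [hu, e]
    convert this using 1
    module

variable [Group Γ] (r : Γ →* Perm K) (hr : ∀ x y, c x = c y → ∃ t, r t = swap x y)
include hr

lemma DL.pick (h : DL L c P) {ρ : ℝ} (A : Matrix K K ℝ) (m : A.IsSymm)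
    (F : ∀ x > ρ, 0 < (P A).eval x) :
    ∃ t, ∀ x > ρ, 0 < (L * A.submatrix (r t) (r t) * Lᵀ).charpoly.eval x := by
  induction h generalizing A with
  | base => exact ⟨1, by simpa using F⟩
  | step P x y a h hc a0 a1 ih =>
    obtain ⟨M, hM, ⟨u, hu⟩, v, hv⟩ := split A m x y
    obtain ⟨g, s, d, e⟩ := h.sg h.nr hM u
    obtain ⟨g', s', d', e'⟩ := h.sg h.nr hM v
    rw [← hu] at e
    rw [← hv] at e'
    rcases sel (ρ := ρ) (h.mon M).monic s s' d d' a0 a1 (fun z hz => by
      convert F z hz using 2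
      simp only [e, e']; module) with k | k
    · exact ih A m (e ▸ k)
    · obtain ⟨t, ht⟩ := ih _ (m.submatrix _) (e' ▸ k)
      obtain ⟨t', ht'⟩ := hr x y hc
      exact ⟨t' * t, by simpa [ht'] using ht⟩

lemma DL.sum [Fintype Γ] (h : DL L c P) (A : Matrix K K ℝ) :
    ∑ t, P (A.submatrix (r t) (r t)) = ∑ t, (L * A.submatrix (r t) (r t) * Lᵀ).charpoly := by
  induction h with
  | base => rfl
  | step P x y a h hc a0 a1 ih =>
    obtain ⟨t', ht'⟩ := hr x y hc
    have := Equiv.sum_comp (Equiv.mulRight t') fun t => P (A.submatrix (r t) (r t))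
    simp only [coe_mulRight, map_mul, ht', Perm.coe_mul] at this
    simp only [Finset.sum_add_distrib, ← Finset.smul_sum, submatrix_submatrix, this, ih]
    module

omit hr in
lemma unif (L : Matrix ι K ℝ) (c : K → Cl) (s : Finset K) : ∃ P, DL L c P ∧ ∀ g : Perm K,
    (∀ x, c (g x) = c x) → (∀ x ∉ s, g x = x) → ∀ A, P (A.submatrix g g) = P A := by
  classical
  induction s using Finset.induction_on with
  | empty => exact ⟨_, .base, fun g _ h A => by rw [show g = 1 from Perm.ext fun x => h x (by simp)]; rfl⟩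
  | insert a s ha ih =>
    obtain ⟨P, hP, iv⟩ := ih
    have k : ∀ g : Perm K, (∀ x, c (g x) = c x) → (∀ x ∉ insert a s, g x = x) →
        ∀ x ∈ insert a s, g x ∈ insert a s → c x = c a → ∀ A : Matrix K K ℝ,
        P ((A.submatrix g g).submatrix (swap a x) (swap a x)) =
          P (A.submatrix (swap a (g x)) (swap a (g x))) := fun g h1 h2 x hx hx' e A => by
      have sw : ∀ y z, c y = c a → c (swap a y z) = c z := fun y z e => by
        rw [swap_apply_def]; split_ifs <;> simp [*]
      rw [← iv (swap a (g x) * g * swap a x) (fun z => by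
        simp only [Perm.mul_apply]; rw [sw _ _ (by rw [h1, e]), h1, sw _ _ e]) (fun z hz => by
        by_cases b : z = a
        · simp [b]
        have : z ∉ insert a s := by simp [*]
        simp only [Perm.mul_apply]
        rw [swap_apply_of_ne_of_ne b (by rintro rfl; exact this hx), h2 z this,
          swap_apply_of_ne_of_ne b (by rintro rfl; exact this hx')])
        (A.submatrix (swap a (g x)) (swap a (g x)))]
      congr 1
      ext i j
      simp
    obtain ⟨T, hT⟩ : ∃ T, T = s.filter (c · = c a) := ⟨_, rfl⟩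
    obtain ⟨q, hq⟩ : ∃ q : ℝ, q = 1 / (T.card + 1) := ⟨_, rfl⟩
    have q0 : 0 < q := by rw [hq]; positivity
    have q1 : q * (T.card + 1) = 1 := by rw [hq]; field_simp
    have : ∀ t ⊆ T, ∃ Q, DL L c Q ∧ ∀ A, Q A = q • ∑ x ∈ t, P (A.submatrix (swap a x) (swap a x))
        + (1 - q * t.card) • P A := fun t ht => by
      induction t using Finset.induction_on with
      | empty => exact ⟨P, hP, by simp⟩
      | insert y t hy ih =>
        obtain ⟨Q, hQ, e⟩ := ih ((Finset.subset_insert _ _).trans ht)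
        have l : (t.card : ℝ) + 1 ≤ T.card := by
          exact_mod_cast Finset.card_insert_of_notMem hy ▸ Finset.card_le_card ht
        have p : 0 < 1 - q * t.card := by nlinarith
        have m : ∀ x ∈ insert y t, x ∈ s ∧ c x = c a := fun x hx => by simpa [hT] using ht hx
        have my := m y (Finset.mem_insert_self _ _)
        refine ⟨_, .step Q a y (q / (1 - q * t.card)) hQ my.2.symm (by positivity)
          ((div_le_one p).2 (by nlinarith)), fun A => ?_⟩
        have : ∀ x ∈ t, P ((A.submatrix (swap a y) (swap a y)).submatrix (swap a x) (swap a x)) =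
            P (A.submatrix (swap a x) (swap a x)) := fun x hx => by
          have mx := m x (Finset.mem_insert_of_mem hx)
          have f : swap a y x = x := swap_apply_of_ne_of_ne (by rintro rfl; exact ha mx.1)
            (by rintro rfl; exact hy hx)
          rw [k _ (fun z => by rw [swap_apply_def]; split_ifs <;> simp [*]) (fun z hz =>
            swap_apply_of_ne_of_ne (by rintro rfl; simp at hz) (by rintro rfl; simp [my.1] at hz))
            x (by simp [mx.1]) (by simp [f, mx.1]) mx.2, f]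
        simp only [e, Finset.sum_insert hy, Finset.card_insert_of_notMem hy,
          Finset.sum_congr rfl this]
        match_scalars <;> field_simp <;> ring
    obtain ⟨Q, hQ, e⟩ := this T le_rfl
    have aT : a ∉ T := by simp [hT, ha]
    have e' : ∀ A, Q A = q • ∑ x ∈ insert a T, P (A.submatrix (swap a x) (swap a x)) := fun A => by
      rw [e, Finset.sum_insert aT, show 1 - q * T.card = q by linarith]
      simp [add_comm]
    refine ⟨Q, hQ, fun g h1 h2 A => ?_⟩
    have m : ∀ x, x ∈ insert a T ↔ x ∈ insert a s ∧ c x = c a := fun x => by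
      simp only [hT, Finset.mem_insert, Finset.mem_filter]; aesop
    have gi : ∀ x, x ∈ insert a s ↔ g x ∈ insert a s := fun x => not_iff_not.1
      ⟨fun h => by rwa [h2 x h], fun h => by rwa [g.injective (h2 _ h)] at h⟩
    rw [e', e']
    congr 1
    exact Finset.sum_equiv g (fun x => by rw [m, m, h1, gi]) fun x hx =>
      k g h1 h2 x ((m x).1 hx).1 ((gi x).1 ((m x).1 hx).1) ((m x).1 hx).2 A

theorem inter [Fintype Γ] (h2 : ∀ t x, c (r t x) = c x) (L : Matrix ι K ℝ) {ρ : ℝ}
    (A : Matrix K K ℝ) (m : A.IsSymm)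
    (F : ∀ x > ρ, 0 < ∑ t, (L * A.submatrix (r t) (r t) * Lᵀ).charpoly.eval x) :
    ∃ t, ∀ x > ρ, 0 < (L * A.submatrix (r t) (r t) * Lᵀ).charpoly.eval x := by
  obtain ⟨P, hP, iv⟩ := unif L c Finset.univ
  refine hP.pick r hr A m fun x hx => ?_
  have := F x hx
  rw [← eval_finsetSum, ← hP.sum r hr, Finset.sum_congr rfl fun t _ =>
    iv (r t) (h2 t) (by simp) A] at this
  simp only [Finset.sum_const, nsmul_eq_mul, eval_mul, eval_natCast] at this
  exact (pos_iff_pos_of_mul_pos this).1 (by exact_mod_cast Fintype.card_pos)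

end Pool.Agent.H.MP_eaea0b_co
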