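import Mathlib

set_option autoImplicit false
open Filter Set Topology Matrix Equiv
open scoped Kronecker

namespace Pool.Agent.H.MP_eaea0b_co

variable {d : ℕ}

noncomputable def cp (k : ℕ) (A : Matrix (Fin d) (Fin d) ℝ) :
    Matrix (powersetCard (Fin d) k) (powersetCard (Fin d) k) ℝ :=
  of fun I J => (A.submatrix (powersetCard.ofFinEmbEquiv.symm I)
    (powersetCard.ofFinEmbEquiv.symm J)).det

lemma cp_eq (k : ℕ) (A : Matrix (Fin d) (Fin d) ℝ) : cp k A = LinearMap.toMatrix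
    ((Pi.basisFun ℝ (Fin d)).exteriorPower k) ((Pi.basisFun ℝ (Fin d)).exteriorPower k)
    (exteriorPower.map k (toLin' A)) := by
  ext I J
  rw [LinearMap.toMatrix_apply, exteriorPower.basis_apply, exteriorPower.basis_repr_apply,
    exteriorPower.ιMulti_family, exteriorPower.map_apply_ιMulti,
    exteriorPower.ιMultiDual_apply_ιMulti, ← det_transpose]
  simp only [cp, of_apply]
  congr 1
  ext i j
  simp

abbrev Fk (d : ℕ) := Σ k : Fin (d + 1), powersetCard (Fin d) k

noncomputable def C (A : Matrix (Fin d) (Fin d) ℝ) : Matrix (Fk d) (Fk d) ℝ :=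
  blockDiagonal' fun k : Fin (d + 1) => cp k A

lemma C_mul (A B : Matrix (Fin d) (Fin d) ℝ) : C (A * B) = C A * C B := by
  simp only [C, ← blockDiagonal'_mul, cp_eq, toLin'_mul, exteriorPower.map_comp,
    ← LinearMap.toMatrix_comp]

lemma C_one : C (1 : Matrix (Fin d) (Fin d) ℝ) = 1 := by
  simp only [C, cp_eq, toLin'_one, exteriorPower.map_id, LinearMap.toMatrix_id]
  exact blockDiagonal'_one

lemma C_tr (A : Matrix (Fin d) (Fin d) ℝ) : C Aᵀ = (C A)ᵀ := by
  rw [C, C, blockDiagonal'_transpose]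
  congr
  ext k I J
  simp only [cp, of_apply, transpose_apply]
  rw [← det_transpose]; rfl

lemma det_pw {m : Type} [Fintype m] [DecidableEq m] (Z : Matrix m m ℝ) :
    (1 + Z).det = ∑ s : Finset m, (of (s.piecewise Z.row (1 : Matrix m m ℝ).row)).det := by
  rw [add_comm]
  exact (detRowAlternating : (m → ℝ) [⋀^m]→ₗ[ℝ] ℝ).map_add_univ Z.row (1 : Matrix m m ℝ).row

lemma C_trace (Z : Matrix (Fin d) (Fin d) ℝ) : (C Z).trace = (1 + Z).det := by
  rw [det_pw, C, trace_blockDiagonal', ← Finset.powerset_univ, Finset.sum_powerset,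
    Finset.card_fin, ← Fin.sum_univ_eq_sum_range (fun k => ∑ t ∈ Finset.univ.powersetCard k, _)]
  refine Finset.sum_congr rfl fun k _ => ?_
  rw [Finset.sum_subtype (F := inferInstanceAs (Fintype (powersetCard (Fin d) k)))
    (p := (· ∈ powersetCard (Fin d) k)) _ (by simp)]
  refine Finset.sum_congr rfl fun I _ => ?_
  rw [det_piecewise_one_eq_submatrix_det,
    ← det_submatrix_equiv_self (I.1.orderIsoOfFin I.2).toEquiv]
  rfl

lemma uq {X κ : Type} [Fintype X] [DecidableEq X] [Fintype κ] [DecidableEq κ] {R : Matrix X X ℝ}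
    {W : Matrix X κ ℝ} (s : Rᵀ = R) (i : R * R = R) (w : Wᵀ * W = 1) (f : R * W = W)
    (t : R.trace ≤ Fintype.card κ) : R = W * Wᵀ := by
  have f' : Wᵀ * R = Wᵀ := by rw [← s, ← transpose_mul, f]
  have e : (R - W * Wᵀ) * (R - W * Wᵀ)ᴴ = R - W * Wᵀ := by
    rw [conjTranspose_eq_transpose_of_trivial, transpose_sub, s, transpose_mul,
      transpose_transpose, Matrix.mul_sub, Matrix.sub_mul, Matrix.sub_mul, i, ← Matrix.mul_assoc R,
      f, Matrix.mul_assoc, f', Matrix.mul_assoc, ← Matrix.mul_assoc Wᵀ, w, Matrix.one_mul]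
    simp
  rw [← sub_eq_zero, ← trace_mul_conjTranspose_self_eq_zero_iff]
  refine le_antisymm ?_ (posSemidef_self_mul_conjTranspose _).trace_nonneg
  rwa [e, trace_sub, trace_mul_comm, w, trace_one, sub_nonpos]

structure Rep {Γ : Type} [Fintype Γ] (π : Γ → Matrix (Fin d) (Fin d) ℝ) : Prop where
  ne : Nonempty Γ
  mul : ∀ g, ∃ φ : Γ → Γ, φ.Injective ∧ ∀ h, π (φ h) = π g * π h
  tr : ∃ φ : Γ → Γ, φ.Injective ∧ ∀ h, π (φ h) = (π h)ᵀ
  orth : ∀ g, π g * (π g)ᵀ = 1
  cnt : ∑ g, (1 + π g).det ^ 2 ≤ (d + 1) * Fintype.card Γ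

noncomputable def Wm (d : ℕ) : Matrix (Fk d × Fk d) (Fin (d + 1)) ℝ := of fun p k =>
  if p.1 = p.2 ∧ p.1.1 = k then (√(Finset.univ.filter fun q : Fk d => q.1 = k).card)⁻¹ else 0

lemma Wm_orth : (Wm d)ᵀ * Wm d = 1 := by
  ext k l
  obtain ⟨s, -, hs⟩ := Finset.exists_subset_card_eq (s := (Finset.univ : Finset (Fin d)))
    (n := k) (by simpa using Nat.le_of_lt_succ k.2)
  have p : (0 : ℝ) < (Finset.univ.filter fun q : Fk d => q.1 = k).card := by
    exact_mod_cast Finset.card_pos.2 ⟨(⟨k, s, hs⟩ : Fk d), by simp⟩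
  simp only [mul_apply, transpose_apply, Wm, of_apply, Fintype.sum_prod_type, ite_and, ite_mul,
    zero_mul, Finset.sum_ite_eq, Finset.mem_univ, if_true, one_apply]
  split_ifs with h
  · subst h
    rw [Finset.sum_congr rfl (g := fun q : Fk d => if q.1 = k then
      ((Finset.univ.filter fun q : Fk d => q.1 = k).card : ℝ)⁻¹ else 0) fun q _ => by
        split_ifs <;> simp [← mul_inv], ← Finset.sum_filter]
    simp [p.ne']
  · exact Finset.sum_eq_zero fun q _ => by split_ifs <;> simp_all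

lemma Wm_fix {A : Matrix (Fin d) (Fin d) ℝ} (h : A * Aᵀ = 1) : (C A ⊗ₖ C A) * Wm d = Wm d := by
  ext ⟨p, q⟩ k
  have e := congrFun (congrFun (congrArg C h) p) q
  rw [C_mul, C_tr, C_one, mul_apply, one_apply] at e
  simp only [mul_apply, Wm, of_apply, Fintype.sum_prod_type, ite_and, mul_ite, mul_zero,
    Finset.sum_ite_eq, Finset.mem_univ, if_true, kroneckerMap_apply]
  rw [Finset.sum_congr rfl (g := fun x => C A p x * (C A)ᵀ x q * if p.1 = k then
    (√(Finset.univ.filter fun q : Fk d => q.1 = k).card)⁻¹ else 0) fun x _ => ?_,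
    ← Finset.sum_mul, e]
  · split_ifs <;> simp
  by_cases a : p.1 = x.1
  · simp [a]
  · have : C A p x = 0 := blockDiagonal'_apply_ne (fun k : Fin (d + 1) => cp k A) p.2 x.2 a
    simp [this]

lemma Rep.avg {Γ : Type} [Fintype Γ] {π : Γ → Matrix (Fin d) (Fin d) ℝ} (h : Rep π) :
    (Fintype.card Γ : ℝ)⁻¹ • ∑ g, C (π g) ⊗ₖ C (π g) = Wm d * (Wm d)ᵀ := by
  have := h.ne
  have p : (0 : ℝ) < Fintype.card Γ := by exact_mod_cast Fintype.card_pos
  refine uq ?_ ?_ Wm_orth ?_ ?_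
  · obtain ⟨φ, i, e⟩ := h.tr
    rw [transpose_smul, transpose_sum, ← (Finite.injective_iff_bijective.1 i).sum_comp]
    simp only [e, C_tr, kroneckerMap_transpose, transpose_transpose]
  · have : ∀ g, (C (π g) ⊗ₖ C (π g)) * ∑ g, C (π g) ⊗ₖ C (π g) = ∑ g, C (π g) ⊗ₖ C (π g) :=
      fun g => by
        obtain ⟨φ, i, e⟩ := h.mul g
        rw [Finset.mul_sum, eq_comm, ← (Finite.injective_iff_bijective.1 i).sum_comp]
        simp only [e, C_mul, mul_kronecker_mul]
    rw [smul_mul_smul, Finset.sum_mul]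
    simp only [this, Finset.sum_const, Finset.card_univ, ← Nat.cast_smul_eq_nsmul ℝ, smul_smul]
    congr 1
    field_simp
  · rw [Matrix.smul_mul, Matrix.sum_mul]
    simp [Wm_fix (h.orth _), ← Nat.cast_smul_eq_nsmul ℝ, smul_smul, p.ne']
  · simp only [trace_smul, trace_sum, trace_kronecker, C_trace, ← sq, smul_eq_mul]
    rw [inv_mul_le_iff₀ p, mul_comm]
    simpa using h.cnt

variable {ι : Type} [Fintype ι] [DecidableEq ι]

lemma mem_span {X : Type} [Finite X] (Q : X → Matrix (Fin d) (Fin d) ℝ) (M : Matrix ι ι ℝ)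
    (U : Matrix ι (Fin d) ℝ) (V : Matrix (Fin d) ι ℝ) : (fun x => (M + U * Q x * V).det) ∈
      Submodule.span ℝ (range fun p : Fk d × Fk d => fun x => C (Q x) p.1 p.2) := by
  generalize hS : Submodule.span ℝ (range fun p : Fk d × Fk d => fun x => C (Q x) p.1 p.2) = S
  have k : ∀ M : Matrix ι ι ℝ, IsUnit M.det → (fun x => (M + U * Q x * V).det) ∈ S := fun M h => by
    have : (fun x => (M + U * Q x * V).det) = ∑ p : Fk d × Fk d,
        (M.det * C (V * M⁻¹ * U) p.2 p.1) • fun x => C (Q x) p.1 p.2 := by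
      ext x
      rw [Matrix.mul_assoc, det_add_mul _ _ h, Matrix.mul_assoc (Q x), Matrix.mul_assoc (Q x),
        ← C_trace, C_mul]
      simp [trace, mul_apply, Fintype.sum_prod_type, Finset.mul_sum, mul_comm, mul_assoc,
        mul_left_comm]
    exact this ▸ S.sum_mem fun p _ => S.smul_mem _ (hS ▸ Submodule.subset_span ⟨p, rfl⟩)
  have c : IsClosed {t : ℝ | (fun x => (scalar ι t - -M + U * Q x * V).det) ∈ S} :=
    S.closed_of_finiteDimensional.preimage (continuous_pi fun x => Continuous.matrix_det (by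
      refine .add (.sub ?_ continuous_const) continuous_const
      exact (continuous_pi fun _ => continuous_id).matrix_diagonal))
  have := c.closure_subset_iff.2 (fun t ht => k _ (by
    rw [← eval_charpoly, isUnit_iff_ne_zero]
    simpa [(-M).charpoly_monic.ne_zero] using ht))
    (((-M).charpoly.roots.toFinset.finite_toSet.countable.dense_compl ℝ) 0)
  simpa using this

lemma Rep.eq {Γ Γ' : Type} [Fintype Γ] [Fintype Γ'] {π : Γ → Matrix (Fin d) (Fin d) ℝ}
    {π' : Γ' → Matrix (Fin d) (Fin d) ℝ} (h : Rep π) (h' : Rep π') (M : Matrix ι ι ℝ)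
    (U U' : Matrix ι (Fin d) ℝ) (V V' : Matrix (Fin d) ι ℝ) :
    (Fintype.card Γ : ℝ)⁻¹ * ∑ g, (M + U * π g * V + U' * (π g)ᵀ * V').det =
    (Fintype.card Γ' : ℝ)⁻¹ * ∑ g, (M + U * π' g * V + U' * (π' g)ᵀ * V').det := by
  classical
  obtain ⟨Q, hQ⟩ : ∃ Q, Q = Sum.elim π π' := ⟨_, rfl⟩
  obtain ⟨w, hw⟩ : ∃ w : Γ ⊕ Γ' → ℝ, w = Sum.elim (fun _ => (Fintype.card Γ : ℝ)⁻¹)
    fun _ => -(Fintype.card Γ' : ℝ)⁻¹ := ⟨_, rfl⟩
  obtain ⟨S, hS⟩ : ∃ S, S = Submodule.span ℝ
    (range fun p : Fk d × Fk d => fun x => C (Q x) p.1 p.2) := ⟨_, rfl⟩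
  have o : ∀ a ∈ S, ∀ b ∈ S, ∑ x, w x * (a x * b x) = 0 := fun a ha b hb => by
    subst hS
    induction ha, hb using Submodule.span_induction₂ with
    | mem_mem a b ha hb =>
      obtain ⟨p, rfl⟩ := ha
      obtain ⟨q, rfl⟩ := hb
      have := congrFun (congrFun (h.avg.trans h'.avg.symm) (p.1, q.1)) (p.2, q.2)
      simp only [Matrix.smul_apply, Matrix.sum_apply, kroneckerMap_apply, smul_eq_mul] at this
      simp [hw, hQ, ← Finset.mul_sum, this]
    | zero_left => simp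
    | zero_right => simp
    | add_left _ _ _ _ _ _ e e' =>
      simp only [Pi.add_apply, add_mul, mul_add, Finset.sum_add_distrib, e, e', add_zero]
    | add_right _ _ _ _ _ _ e e' =>
      simp only [Pi.add_apply, mul_add, Finset.sum_add_distrib, e, e', add_zero]
    | smul_left r a b _ _ e =>
      simp only [Pi.smul_apply, smul_eq_mul, mul_assoc, mul_left_comm _ r, ← Finset.mul_sum, e,
        mul_zero]
    | smul_right r a b _ _ e =>
      simp only [Pi.smul_apply, smul_eq_mul, mul_left_comm _ r, ← Finset.mul_sum, e, mul_zero]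
  obtain ⟨f, hf⟩ := LinearMap.exists_leftInverse_of_injective S.subtype S.ker_subtype
  obtain ⟨F, hF⟩ : ∃ F : Γ ⊕ Γ' → Γ ⊕ Γ' → ℝ, F = fun x y =>
    (M + U * Q x * V + U' * (Q y)ᵀ * V').det := ⟨_, rfl⟩
  have f1 : ∀ y, (fun x => F x y) ∈ S := fun y => by
    simpa only [hS, hF, add_right_comm M] using mem_span Q (M + U' * (Q y)ᵀ * V') U V
  have f2 : ∀ x, F x ∈ S := fun x => by
    have := mem_span (fun y => (Q y)ᵀ) (M + U * Q x * V) U' V'
    rw [hS, hF]
    refine Submodule.span_mono ?_ this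
    rintro _ ⟨p, rfl⟩
    exact ⟨p.swap, by simp [C_tr]⟩
  have e : ∀ x y, F x y = ∑ z, (f (Pi.single z 1)).1 x * F z y := fun x y => by
    have a := congrArg (·.1 x) (LinearMap.congr_fun hf ⟨_, f1 y⟩)
    simp only [LinearMap.comp_apply, Submodule.subtype_apply, LinearMap.id_apply] at a
    rw [← a, pi_eq_sum_univ' (fun x => F x y)]
    simp [mul_comm]
  have : ∑ x, w x * F x x = 0 := by
    rw [Finset.sum_congr rfl fun x _ => by rw [e, Finset.mul_sum], Finset.sum_comm]
    exact Finset.sum_eq_zero fun z _ => o _ (f _).2 _ (f2 z)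
  simpa [hw, hF, hQ, ← Finset.mul_sum, add_neg_eq_zero] using this

end Pool.Agent.H.MP_eaea0b_co
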