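import Pool.Agent.H.MP_eaea0b_co.C

set_option autoImplicit false
open Matrix Equiv Finset

namespace Pool.Agent.H.MP_eaea0b_co

variable {m : Type} [Fintype m] [DecidableEq m]

def sp (s : m → ℝ) (σ : m → m) : Matrix m m ℝ := of fun i j => if σ i = j then s i else 0

omit [Fintype m] in
lemma sp_perm (σ : Perm m) : sp 1 σ = σ.permMatrix ℝ := by
  ext i j; simp [sp, PEquiv.toMatrix_apply, eq_comm]

lemma sp_det (s : m → ℝ) (σ : m → m) : (sp s σ).det = (∏ i, s i) * (sp 1 σ).det := by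
  rw [← det_diagonal, ← det_mul]
  congr 1
  ext i j; simp [sp]

noncomputable def bb (I : Finset m) (σ : Perm m) : ℝ := (sp 1 (I.piecewise σ id)).det

lemma det_sp (s : m → ℝ) (σ : Perm m) : (1 + sp s σ).det = ∑ I : Finset m, (∏ i ∈ I, s i) * bb I σ := by
  rw [det_pw]
  refine sum_congr rfl fun I _ => ?_
  rw [← prod_ite_mem_eq, bb, ← sp_det]
  congr 1
  ext i j
  by_cases h : i ∈ I <;> simp [sp, h, one_apply]

lemma bb_le (I : Finset m) (σ : Perm m) : |bb I σ| ≤ if ∀ i, σ i ∈ I ↔ i ∈ I then 1 else 0 := by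
  by_cases h : (I.piecewise σ id).Injective
  · have k : ∀ i ∈ I, σ i ∈ I := fun i a => by
      by_contra b
      exact b ((h (a₁ := i) (a₂ := σ i) (by simp [a, b])) ▸ a)
    rw [if_pos fun i => ⟨fun a => by simpa using Perm.perm_symm_on_of_perm_on_finset k a, k i⟩, bb,
      show sp 1 (I.piecewise σ id) = _ from
        sp_perm (Equiv.ofBijective _ (Finite.injective_iff_bijective.1 h)),
      det_permutation]
    generalize Perm.sign (α := m) _ = u
    rcases Int.units_eq_one_or u with rfl | rfl <;> simp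
  · obtain ⟨a, b, e, n⟩ := Function.not_injective_iff.1 h
    rw [bb, det_zero_of_row_eq n (by ext j; simp [sp, e])]
    split_ifs <;> simp

lemma bb_canc {I J : Finset m} {x y : m} (n : x ≠ y) (hx : x ∈ I \ J) (hy : y ∈ I \ J) :
    ∑ σ, bb I σ * bb J σ = 0 := by
  simp only [mem_sdiff] at hx hy
  have a : ∀ σ, bb I (σ * swap x y) = -bb I σ := fun σ => by
    have := det_permute (swap x y) (sp 1 (I.piecewise σ id))
    rw [Perm.sign_swap n] at this
    rw [bb, bb, neg_eq_neg_one_mul]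
    convert this using 2
    · ext i j
      simp only [sp, submatrix_apply, of_apply, id, piecewise, Perm.mul_apply, swap_apply_def]
      split_ifs <;> simp_all
    · simp
  have b : ∀ σ, bb J (σ * swap x y) = bb J σ := fun σ => by
    rw [bb, bb, J.piecewise_congr (fun i hi => ?_) fun _ _ => rfl]
    rw [Perm.mul_apply, swap_apply_of_ne_of_ne (by rintro rfl; exact hx.2 hi)
      (by rintro rfl; exact hy.2 hi)]
  have := Equiv.sum_comp (Equiv.mulRight (swap x y)) fun σ => bb I σ * bb J σ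
  simp only [coe_mulRight, a, b, neg_mul, sum_neg_distrib] at this
  linarith

lemma orb {P κ : Type} [DecidableEq κ] (c : P → m → κ) (hc : c.Injective) (T : Finset P)
    (θ : P → ℕ) (N : ℕ) (h1 : ∀ p ∈ T, θ p < N) (h2 : ∀ p ∈ T, ∀ q ∈ T, θ p = θ q →
      ∀ k, #{i | c p i = k} = #{i | c q i = k}) :
    ∑ p ∈ T, #{σ : Perm m | c p ∘ σ = c p} ≤ N * Fintype.card (Perm m) := by
  rw [← sum_fiberwise_of_maps_to (t := range N) (g := θ) fun p hp => mem_range.2 (h1 p hp)]
  refine (sum_le_card_nsmul _ _ _ fun j _ => ?_).trans (by rw [card_range]; rfl)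
  rcases (T.filter (θ · = j)).eq_empty_or_nonempty with e | ⟨q, hq⟩
  · simp [e]
  rw [sum_congr rfl (g := fun p => #{σ : Perm m | c q ∘ σ = c p}) fun p hp => ?_]
  · simp only [card_filter]
    rw [sum_comm]
    refine (sum_le_card_nsmul _ _ 1 fun σ _ => ?_).trans (by simp)
    rw [← card_filter]
    exact card_le_one.2 fun a ha b hb => hc ((mem_filter.1 ha).2.symm.trans (mem_filter.1 hb).2)
  simp only [mem_filter] at hp hq
  obtain ⟨t, ht⟩ : ∃ t : Perm m, ∀ i, c q (t i) = c p i := ⟨Equiv.ofFiberEquiv fun k =>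
    Fintype.equivOfCardEq (by
      simpa only [Fintype.card_subtype] using h2 p hp.1 q hq.1 (hp.2.trans hq.2.symm) k),
    Equiv.ofFiberEquiv_map _⟩
  exact card_equiv (Equiv.mulLeft t) fun σ => by simp [funext_iff, ht]

lemma cnt1 (hm : 0 < Fintype.card m) : ∑ σ : Perm m, (1 + σ.permMatrix ℝ).det ^ 2 ≤
    (4 * Fintype.card m) * Fintype.card (Perm m) := by
  obtain ⟨c, hc⟩ : ∃ c : Finset m × Finset m → m → Bool × Bool,
    ∀ p i, c p i = (decide (i ∈ p.1), decide (i ∈ p.2)) := ⟨_, fun _ _ => rfl⟩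
  obtain ⟨f, hf⟩ : ∃ f : Finset m × Finset m → Bool → Bool → ℕ,
    ∀ p a b, f p a b = #{i | c p i = (a, b)} := ⟨_, fun _ _ _ => rfl⟩
  have tot : ∀ p, f p true true + f p true false + (f p false true + f p false false) =
      Fintype.card m := fun p => by
    rw [← card_univ, card_eq_sum_card_fiberwise (f := c p) (t := univ) (by simp)]
    simp [hf, Fintype.sum_prod_type]
  have := orb c (fun p q h => by
    simp only [funext_iff, hc, Prod.mk.injEq, decide_eq_decide] at h
    exact Prod.ext (Finset.ext fun i => (h i).1) (Finset.ext fun i => (h i).2))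
    {p | f p true false ≤ 1 ∧ f p false true ≤ 1} (fun p => f p true true +
      if f p true false = 0 then (if f p false true = 0 then 0 else Fintype.card m + 1) else
      (if f p false true = 0 then 2 * Fintype.card m + 1 else 3 * Fintype.card m + 1))
    (4 * Fintype.card m) (fun p hp => by
      have := tot p
      simp only [mem_filter] at hp
      split_ifs <;> omega) (fun p hp q hq e k => by
      have := tot p
      have := tot q
      simp only [mem_filter] at hp hq
      rcases k with ⟨_ | _, _ | _⟩ <;> simp only [← hf] <;> split_ifs at e <;> omega)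
  refine le_trans ?_ (by exact_mod_cast this : ((∑ p ∈ _, _ : ℕ) : ℝ) ≤ _)
  simp only [← sp_perm, det_sp, sq, sum_mul_sum, Pi.one_apply, prod_const_one, one_mul,
    Nat.cast_sum, sum_filter]
  rw [sum_congr rfl fun σ _ => (Fintype.sum_prod_type' _).symm, sum_comm]
  refine sum_le_sum fun p _ => ?_
  split_ifs with h
  · rw [card_filter, Nat.cast_sum]
    refine sum_le_sum fun σ _ => (le_abs_self _).trans ?_
    rw [abs_mul]
    refine (mul_le_mul (bb_le _ _) (bb_le _ _) (abs_nonneg _) (by split_ifs <;> simp)).trans ?_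
    simp only [funext_iff, hc, Function.comp, Prod.mk.injEq, decide_eq_decide, forall_and]
    split_ifs <;> simp_all
  · rcases not_and_or.1 h with h | h <;> rw [hf, not_le, one_lt_card] at h <;>
      obtain ⟨x, hx, y, hy, n⟩ := h
    · simpa using (bb_canc n (by simpa [hc] using hx) (by simpa [hc] using hy)).le
    · simpa [mul_comm] using (bb_canc (I := p.2) (J := p.1) n (by simpa [hc, and_comm] using hx)
        (by simpa [hc, and_comm] using hy)).le

def sg (g : (m → ℤˣ) × Perm m) : Matrix m m ℝ := sp (fun i => ((g.1 i : ℤ) : ℝ)) g.2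

lemma cnt2 : ∑ g : (m → ℤˣ) × Perm m, (1 + sg g).det ^ 2 ≤
    (Fintype.card m + 1) * Fintype.card ((m → ℤˣ) × Perm m) := by
  have := orb (fun (I : Finset m) i => decide (i ∈ I)) (fun p q h => by
    simpa [funext_iff, Finset.ext_iff] using h) univ card (Fintype.card m + 1)
    (fun p _ => Nat.lt_succ_of_le (card_le_univ p)) (fun p _ q _ e k => by
      cases k <;> simp [e, filter_not, card_sdiff])
  have z : ∀ I J : Finset m, ∀ x ∈ I, x ∉ J → ∑ s : m → ℤˣ,
      (∏ i ∈ I, ((s i : ℤ) : ℝ)) * ∏ i ∈ J, ((s i : ℤ) : ℝ) = 0 := fun I J x a b => by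
    have := Equiv.sum_comp (Equiv.mulLeft (Pi.mulSingle x (-1) : m → ℤˣ)) fun s =>
      (∏ i ∈ I, ((s i : ℤ) : ℝ)) * ∏ i ∈ J, ((s i : ℤ) : ℝ)
    have e : ∀ K : Finset m, ∏ i ∈ K, ((((Pi.mulSingle x (-1) : m → ℤˣ) i : ℤˣ) : ℤ) : ℝ) =
        if x ∈ K then -1 else 1 := fun K => by
      rw [← prod_ite_eq K x fun _ => (-1 : ℝ)]
      exact prod_congr rfl fun i _ => by by_cases h : x = i <;> simp [Pi.mulSingle_apply, h, eq_comm]
    simp only [coe_mulLeft, Pi.mul_apply, Units.val_mul, Int.cast_mul, prod_mul_distrib, e, a, b,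
      if_true, if_false, neg_mul, one_mul, sum_neg_distrib] at this
    linarith
  calc _ = ∑ I : Finset m, ∑ J : Finset m, (∑ s : m → ℤˣ, (∏ i ∈ I, ((s i : ℤ) : ℝ)) *
        ∏ i ∈ J, ((s i : ℤ) : ℝ)) * ∑ σ, bb I σ * bb J σ := by
        simp only [sg, det_sp, sq, sum_mul_sum]
        rw [sum_comm]
        refine sum_congr rfl fun _ _ => ?_
        rw [sum_comm]
        refine sum_congr rfl fun _ _ => ?_
        rw [Fintype.sum_prod_type]
        exact sum_congr rfl fun _ _ => sum_congr rfl fun _ _ => by ring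
    _ ≤ ∑ I : Finset m, Fintype.card (m → ℤˣ) * (#{σ : Perm m | (fun i => decide (i ∈ I)) ∘ σ =
        fun i => decide (i ∈ I)} : ℝ) := by
        refine sum_le_sum fun I _ => ?_
        rw [sum_eq_single I (fun J _ n => ?_) (by simp)]
        · have : ∀ u : ℤˣ, ((u : ℤ) : ℝ) * (u : ℤ) = 1 := fun u => by
            rcases Int.units_eq_one_or u with rfl | rfl <;> simp
          simp only [← prod_mul_distrib, this, prod_const_one, sum_const, card_univ, nsmul_eq_mul,
            mul_one, card_filter, Nat.cast_sum]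
          refine mul_le_mul_of_nonneg_left (sum_le_sum fun σ _ => ?_) (by positivity)
          rw [← abs_mul_abs_self]
          refine (mul_le_mul (bb_le _ _) (bb_le _ _) (abs_nonneg _) (by split_ifs <;> simp)).trans ?_
          simp only [funext_iff, Function.comp, decide_eq_decide]
          split_ifs <;> simp
        · obtain ⟨x, hx⟩ := not_forall.1 (mt Finset.ext n)
          by_cases a : x ∈ I
          · rw [z I J x a (by tauto), zero_mul]
          · rw [sum_congr rfl fun _ _ => mul_comm _ _, z J I x (by tauto) a, zero_mul]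
    _ ≤ _ := by
        rw [← mul_sum, Fintype.card_prod, Nat.cast_mul, mul_left_comm]
        exact mul_le_mul_of_nonneg_left (by exact_mod_cast this) (by positivity)

lemma rep2 (d : ℕ) : Rep (sg (m := Fin d)) := by
  have t : ∀ g : (Fin d → ℤˣ) × Perm (Fin d), sg (g.1 ∘ g.2.symm, g.2⁻¹) = (sg g)ᵀ := fun g => by
    ext i j
    simp only [sg, sp, of_apply, transpose_apply, Perm.inv_eq_iff_eq, Function.comp]
    by_cases h : i = g.2 j <;> simp [h, eq_comm]
  have u : ∀ g h : (Fin d → ℤˣ) × Perm (Fin d),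
      sg (g.1 * h.1 ∘ g.2, h.2 * g.2) = sg g * sg h := fun g h => by
    ext i j
    rw [mul_apply, sum_eq_single (g.2 i) (fun k _ n => by simp [sg, sp, n.symm]) (by simp)]
    simp [sg, sp]
  refine ⟨inferInstance, fun g => ⟨_, fun a b e => ?_, u g⟩, ⟨_, fun a b e => ?_, t⟩, fun g => ?_,
    by simpa using cnt2 (m := Fin d)⟩
  · simp only [Prod.mk.injEq, mul_right_inj, mul_left_inj] at e
    exact Prod.ext (g.2.surjective.injective_comp_right e.1) e.2
  · simp only [Prod.mk.injEq, _root_.inv_inj] at e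
    exact Prod.ext (a.2.symm.surjective.injective_comp_right (e.1.trans (by rw [e.2]))) e.2
  · rw [← t, ← u]
    ext i j
    simp [sg, sp, one_apply, ← Units.val_mul, ← Int.cast_mul]

lemma cp_split {a b : Type} [Fintype a] [DecidableEq a] [Fintype b] [DecidableEq b]
    (A : Matrix m m ℝ) {U : Matrix m a ℝ} {B : Matrix m b ℝ}
    (h : Fintype.card m = Fintype.card (a ⊕ b)) (e : U * Uᵀ + B * Bᵀ = 1) (z : Uᵀ * A * B = 0) :
    A.charpoly = (Uᵀ * A * U).charpoly * (Bᵀ * A * B).charpoly := by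
  have := charpoly_mul_comm' (fromCols U B) (fromRows Uᵀ Bᵀ * A)
  rw [← Matrix.mul_assoc, fromCols_mul_fromRows, e, Matrix.one_mul, fromRows_mul,
    fromRows_mul_fromCols, z, charpoly_fromBlocks_zero₁₂, h] at this
  exact mul_left_cancel₀ (pow_ne_zero _ Polynomial.X_ne_zero) this

noncomputable def uu (d : ℕ) : Matrix (Fin (d + 1)) Unit ℝ := of fun _ _ => (√(d + 1))⁻¹

lemma P_uu {d : ℕ} (σ : Perm (Fin (d + 1))) : σ.permMatrix ℝ * uu d = uu d := by
  rw [PEquiv.toMatrix_toPEquiv_mul]; rfl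

lemma uu_P {d : ℕ} (σ : Perm (Fin (d + 1))) : (uu d)ᵀ * σ.permMatrix ℝ = (uu d)ᵀ := by
  rw [PEquiv.mul_toMatrix_toPEquiv]; rfl

lemma uu_uu (d : ℕ) : (uu d)ᵀ * uu d = 1 := by
  ext
  simp [uu, mul_apply, ← mul_inv, Real.mul_self_sqrt (show (0 : ℝ) ≤ d + 1 by positivity)]
  field_simp

lemma exB (d : ℕ) : ∃ B : Matrix (Fin (d + 1)) (Fin d) ℝ, (uu d)ᵀ * B = 0 ∧ Bᵀ * B = 1 ∧
    uu d * (uu d)ᵀ + B * Bᵀ = 1 := by
  obtain ⟨r, hr⟩ : ∃ r, r = √((d : ℝ) + 1) := ⟨_, rfl⟩
  have r0 : 0 < r := by rw [hr]; positivity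
  have r2 : (d : ℝ) = r ^ 2 - 1 := by rw [hr, Real.sq_sqrt (by positivity)]; ring
  obtain ⟨B, hB⟩ : ∃ B : Matrix (Fin (d + 1)) (Fin d) ℝ, B = of (Fin.cons (fun _ => -r⁻¹)
    fun i j => (if i = j then 1 else 0) - (r ^ 2 + r)⁻¹) := ⟨_, rfl⟩
  have a : (uu d)ᵀ * B = 0 := by
    ext i j
    simp [uu, mul_apply, ← hr, hB, Fin.sum_univ_succ, mul_sub, r2]
    field_simp; ring
  have b : Bᵀ * B = 1 := by
    ext i j
    simp [mul_apply, hB, Fin.sum_univ_succ, mul_sub, sub_mul, r2, one_apply, eq_comm]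
    field_simp; ring
  refine ⟨B, a, b, ?_⟩
  rw [← fromCols_mul_fromRows, mul_eq_one_comm_of_card_eq _ _ _ (by simp [add_comm]),
    fromRows_mul_fromCols, a, b, uu_uu, ← transpose_transpose (Bᵀ * uu d), transpose_mul,
    transpose_transpose, a]
  simp

lemma rep1 {d : ℕ} {B : Matrix (Fin (d + 1)) (Fin d) ℝ} (a : (uu d)ᵀ * B = 0) (b : Bᵀ * B = 1)
    (e : uu d * (uu d)ᵀ + B * Bᵀ = 1) :
    Rep fun σ : Perm (Fin (d + 1)) => Bᵀ * σ.permMatrix ℝ * B := by
  have u : ∀ g h : Perm (Fin (d + 1)), Bᵀ * (h * g).permMatrix ℝ * B =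
      Bᵀ * g.permMatrix ℝ * B * (Bᵀ * h.permMatrix ℝ * B) := fun g h => by
    have : B * (Bᵀ * h.permMatrix ℝ * B) = h.permMatrix ℝ * B := by
      rw [← Matrix.mul_assoc, ← Matrix.mul_assoc, eq_sub_of_add_eq' e, Matrix.sub_mul,
        Matrix.sub_mul, Matrix.mul_assoc (uu d), uu_P, Matrix.mul_assoc (uu d), a]
      simp
    rw [Matrix.mul_assoc _ B, this, permMatrix_mul]
    simp only [Matrix.mul_assoc]
  have t : ∀ g : Perm (Fin (d + 1)), Bᵀ * g⁻¹.permMatrix ℝ * B = (Bᵀ * g.permMatrix ℝ * B)ᵀ :=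
    fun g => by simp [Matrix.mul_assoc]
  refine ⟨inferInstance, fun g => ⟨_, mul_left_injective g, u g⟩, ⟨_, inv_injective, t⟩,
    fun g => by rw [← t, ← u]; simp [b], ?_⟩
  have k : ∀ g : Perm (Fin (d + 1)), (1 + g.permMatrix ℝ).det =
      2 * (1 + Bᵀ * g.permMatrix ℝ * B).det := fun g => by
    have := congrArg (Polynomial.eval 1) (cp_split (-g.permMatrix ℝ) (by simp [add_comm]) e
      (by simp [uu_P, a]))
    simpa [eval_charpoly, uu_P, uu_uu, two_mul, add_mul] using this
  have := cnt1 (m := Fin (d + 1)) (by simp)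
  simp only [k, mul_pow, ← mul_sum, Fintype.card_fin] at this
  push_cast at this
  linarith

end Pool.Agent.H.MP_eaea0b_co
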