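import Mathlib

set_option autoImplicit false
open Matrix Equiv Finset

namespace Pool.Agent.H.MP_eaea0b_co

variable {W F : Type} [Fintype W] [DecidableEq W] [Fintype F] [DecidableEq F]
  (tl : F × Bool → W) (x : ℝ)

def rv (o : F × Bool) : F × Bool := (o.1, !o.2)

def adj (ε : F → ℤˣ) : Matrix W W ℝ :=
  of fun u y => ∑ o, if tl o = u ∧ tl (rv o) = y then ((ε o.1 : ℤ) : ℝ) else 0

def mat (S : Finset W) (ε : F → ℤˣ) : Matrix W W ℝ :=
  of fun u y => if u ∈ S then (scalar W x - adj tl ε) u y else if u = y then 1 else 0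

noncomputable def mu (S : Finset W) : ℝ := ∑ ε, (mat tl x S ε).det

omit [Fintype W] in
lemma adj_flip (ε : F → ℤˣ) (o : F × Bool) (u y : W) :
    adj tl ε u y = adj tl (Pi.mulSingle o.1 (-1) * ε) u y + 2 * ((ε o.1 : ℤ) : ℝ) *
      ((if tl o = u ∧ tl (rv o) = y then 1 else 0) +
        if tl (rv o) = u ∧ tl o = y then 1 else 0) := by
  rw [← sub_eq_iff_eq_add']
  simp only [adj, of_apply, ← sum_sub_distrib]
  rw [Fintype.sum_prod_type, sum_eq_single o.1 (fun f _ n => by simp [n]) (by simp)]
  rcases o with ⟨f, _ | _⟩ <;> simp only [rv, Fintype.sum_bool, Bool.not_true, Bool.not_false,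
    Pi.mul_apply, Pi.mulSingle_eq_same] <;> split_ifs <;> simp <;> ring

lemma one_edge {S : Finset W} (o : F × Bool) (h : tl o ∈ S) :
    ∑ ε : F → ℤˣ, ((ε o.1 : ℤ) : ℝ) *
      ((mat tl x S ε).updateRow (tl o) (Pi.single (tl (rv o)) 1)).det =
    if tl (rv o) ∈ S.erase (tl o) then mu tl x ((S.erase (tl o)).erase (tl (rv o))) else 0 := by
  have fl := adj_flip tl (o := o)
  generalize tl o = v at *
  generalize tl (rv o) = w at *
  have k := fun g : (F → ℤˣ) → ℝ => Equiv.sum_comp (Equiv.mulLeft (Pi.mulSingle o.1 (-1))) g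
  simp only [coe_mulLeft] at k
  have k1 := k fun ε => ((ε o.1 : ℤ) : ℝ) * ((mat tl x S ε).updateRow v (Pi.single w 1)).det
  simp only [Pi.mul_apply, Pi.mulSingle_eq_same, neg_mul, one_mul, Units.val_neg, Int.cast_neg,
    sum_neg_distrib] at k1
  split_ifs with a
  · obtain ⟨n, a⟩ := mem_erase.1 a
    have : ∀ ε : F → ℤˣ, ((ε o.1 : ℤ) : ℝ) * ((mat tl x S ε).updateRow v (Pi.single w 1)).det =
        ((ε o.1 : ℤ) : ℝ) * ((mat tl x S (Pi.mulSingle o.1 (-1) * ε)).updateRow v
          (Pi.single w 1)).det + 2 * (mat tl x ((S.erase v).erase w)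
          (Pi.mulSingle o.1 (-1) * ε)).det := fun ε => by
      obtain ⟨M, hM⟩ : ∃ M, M = (mat tl x S (Pi.mulSingle o.1 (-1) * ε)).updateRow v
        (Pi.single w 1) := ⟨_, rfl⟩
      have e1 : (mat tl x S ε).updateRow v (Pi.single w 1) =
          M.updateRow w (M w + (-2 * ((ε o.1 : ℤ) : ℝ)) • Pi.single v 1) := by
        ext i j
        simp only [hM, updateRow_apply, mat, of_apply, Matrix.sub_apply, fl ε, Pi.add_apply,
          Pi.smul_apply, Pi.single_apply, smul_eq_mul]
        clear fl k k1 hM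
        by_cases b : i = v <;> by_cases c : i = w <;> simp_all [eq_comm]
        split_ifs <;> ring
      have e2 : M.updateRow w (Pi.single v 1) = (mat tl x ((S.erase v).erase w)
          (Pi.mulSingle o.1 (-1) * ε)).submatrix (swap v w) id := by
        ext i j
        simp only [hM, updateRow_apply, mat, of_apply, submatrix_apply, id, Pi.single_apply]
        clear fl k k1 hM e1
        by_cases b : i = v <;> by_cases c : i = w <;> simp_all [eq_comm, swap_apply_of_ne_of_ne]
      rw [e1, det_updateRow_add, det_updateRow_smul, e2, det_permute, updateRow_eq_self, ← hM,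
        Perm.sign_swap n.symm]
      rcases Int.units_eq_one_or (ε o.1) with e | e <;> simp [e, add_comm]
    rw [sum_congr rfl fun ε _ => this ε, sum_add_distrib, ← mul_sum,
      k fun ε => (mat tl x ((S.erase v).erase w) ε).det] at k1 ⊢
    rw [mu]; linarith
  by_cases b : w = v
  · have : ∀ ε : F → ℤˣ, (mat tl x S (Pi.mulSingle o.1 (-1) * ε)).updateRow v (Pi.single w 1) =
        (mat tl x S ε).updateRow v (Pi.single w 1) := fun ε => by
      ext i j
      simp only [updateRow_apply, mat, of_apply, Matrix.sub_apply, fl ε]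
      by_cases c : i = v <;> simp [c, b, eq_comm (a := v)]
    simp only [this] at k1
    linarith
  · refine sum_eq_zero fun ε _ => mul_eq_zero_of_right _ (det_zero_of_row_eq b ?_)
    ext j
    have : w ∉ S := by simpa [b] using a
    simp [mat, Pi.single_apply, updateRow_apply, eq_comm (a := j), b, this]

lemma mu_rec {S : Finset W} {v : W} (h : v ∈ S) : mu tl x S = x * mu tl x (S.erase v) -
    ∑ o with tl o = v, if tl (rv o) ∈ S.erase v then
      mu tl x ((S.erase v).erase (tl (rv o))) else 0 := by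
  rw [sum_congr rfl fun o ho => ((mem_filter.1 ho).2 ▸ one_edge tl x o
    ((mem_filter.1 ho).2 ▸ h)).symm, sum_comm, mu, mu, mul_sum, ← sum_sub_distrib]
  refine sum_congr rfl fun ε _ => ?_
  have e : mat tl x S ε v = x • Pi.single v 1 -
      ∑ o with tl o = v, ((ε o.1 : ℤ) : ℝ) • Pi.single (tl (rv o)) 1 := by
    ext j
    simp [mat, h, adj, sum_filter, Pi.single_apply, diagonal_apply, ite_and, eq_comm,
      ite_apply]
  have e' : (mat tl x S ε).updateRow v (Pi.single v 1) = mat tl x (S.erase v) ε := by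
    ext i j
    by_cases c : i = v <;> simp [mat, updateRow_apply, c, Pi.single_apply, eq_comm (a := v)]
  conv_lhs => rw [← updateRow_eq_self (mat tl x S ε) v, ← cramer_transpose_apply, e, map_sub,
    map_sum]
  simp only [↓ map_smul, Pi.sub_apply, Pi.smul_apply, Finset.sum_apply,
    cramer_transpose_apply, smul_eq_mul, e']

lemma mu_pos {N : Type} (π : N → W) (hπ : π.Surjective) (st : N → F × Bool → N) (f : N → ℝ)
    (f0 : ∀ n, 0 < f n) (h1 : ∀ n o, tl o = π n → π (st n o) = tl (rv o))
    (h2 : ∀ n o, tl o = π n → f (st (st n o) (rv o)) = f n)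
    (h3 : ∀ n, ∑ o with tl o = π n, f (st n o) < x * f n) (S : Finset W) : 0 < mu tl x S := by
  suffices 0 < mu tl x S ∧ ∀ n, π n ∈ S → (∑ o with tl o = π n, if tl (rv o) ∈ S.erase (π n)
    then 0 else f (st n o)) * mu tl x (S.erase (π n)) < mu tl x S * f n from this.1
  induction S using Finset.strongInduction with
  | H S ih =>
  have nn : ∀ n (T : Finset W) o, 0 ≤ if tl (rv o) ∈ T then 0 else f (st n o) := fun n T o => by
    split_ifs <;> simp [(f0 _).le]
  have k : ∀ n, π n ∈ S → (∑ o with tl o = π n, if tl (rv o) ∈ S.erase (π n)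
      then 0 else f (st n o)) * mu tl x (S.erase (π n)) < mu tl x S * f n := fun n hn => by
    obtain ⟨p, q⟩ := ih _ (erase_ssubset hn)
    rw [mu_rec tl x hn, sub_mul, lt_sub_iff_add_lt, sum_mul, sum_mul, ← sum_add_distrib,
      mul_right_comm]
    refine lt_of_le_of_lt ?_ (mul_lt_mul_of_pos_right (h3 n) p)
    rw [sum_mul]
    refine sum_le_sum fun o ho => ?_
    have ho := (mem_filter.1 ho).2
    split_ifs with a
    · have := q (st n o) (h1 n o ho ▸ a)
      rw [h1 n o ho] at this
      have r : rv (rv o) = o := by simp [rv]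
      have l := single_le_sum (s := {o' | tl o' = tl (rv o)}) (fun o' _ => nn (st n o)
        ((S.erase (π n)).erase (tl (rv o))) o') (a := rv o) (by simp)
      rw [r, if_neg (by simp [ho]), h2 n o ho] at l
      nlinarith [mul_le_mul_of_nonneg_right l
        (ih _ ((erase_ssubset a).trans (erase_ssubset hn))).1.le]
    · simp
  refine ⟨?_, k⟩
  rcases S.eq_empty_or_nonempty with rfl | ⟨v, hv⟩
  · have : ∀ ε, mat tl x ∅ ε = 1 := fun ε => by ext; simp [mat, one_apply]
    simp [mu, this]
  obtain ⟨n, rfl⟩ := hπ v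
  exact (pos_iff_pos_of_mul_pos ((mul_nonneg (sum_nonneg fun o _ => nn n _ o)
    (ih _ (erase_ssubset hv)).1.le).trans_lt (k n hv))).2 (f0 n)

end Pool.Agent.H.MP_eaea0b_co
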