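import Pool.Agent.H.MP_eaea0b_co.E

set_option autoImplicit false
open Finset Filter Topology
open scoped ENNReal NNReal

namespace Pool.Agent.H.MP_eaea0b_co

variable {V E N : Type} [DecidableEq V] [Fintype E] (tl : E × Bool → V) (π : N → V)
  (st : N → E × Bool → N)

lemma exS (c : N → Prop) [DecidablePred c] (φ : N → N) (h : Set.InjOn φ {n | c n}) :
    ∃ A : lp (fun _ : N => ℂ) 2 →L[ℂ] lp (fun _ : N => ℂ) 2,
      ∀ f n, A f n = if c n then f (φ n) else 0 := by
  have i : (fun n : {n | c n} => φ n).Injective := fun a b e => Subtype.ext (h a.2 b.2 e)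
  have s : ∀ f : lp (fun _ : N => ℂ) 2, HasSum (fun n => ‖if c n then f (φ n) else 0‖ ^
      (2 : ℝ≥0∞).toReal) (∑' n : {n | c n}, ‖f (φ n)‖ ^ (2 : ℝ≥0∞).toReal) := fun f => by
    have := (hasSum_subtype_iff_indicator (f := fun n => ‖f (φ n)‖ ^ (2 : ℝ≥0∞).toReal)
      (s := {n | c n})).1 (((lp.memℓp f).summable (by norm_num)).comp_injective i).hasSum
    refine HasSum.congr_fun this fun n => ?_
    by_cases a : c n <;> simp [a]
  refine ⟨LinearMap.mkContinuous ⟨⟨fun f => ⟨fun n => if c n then f (φ n) else 0,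
    memℓp_gen (s f).summable⟩, fun f g => ?_⟩, fun a f => ?_⟩ 1 fun f => ?_, fun _ _ => rfl⟩
  · ext n
    change (if c n then f (φ n) + g (φ n) else 0) =
      (if c n then f (φ n) else 0) + if c n then g (φ n) else 0
    by_cases a : c n <;> simp [a]
  · ext n; by_cases a : c n <;> simp [a]
  · rw [one_mul]
    refine lp.norm_le_of_tsum_le (by norm_num) (norm_nonneg _) (((s f).tsum_eq).trans_le ?_)
    rw [lp.norm_rpow_eq_tsum (by norm_num)]
    have := (lp.memℓp f).summable (by norm_num)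
    exact (this.comp_injective i).tsum_le_tsum_of_inj _ i (fun _ _ => by positivity)
      (fun _ => le_rfl) this

lemma exA (h2 : ∀ n o, tl o = π n → st (st n o) (rv o) = n) :
    ∃ A : lp (fun _ : N => ℂ) 2 →L[ℂ] lp (fun _ : N => ℂ) 2,
      ∀ f n, A f n = ∑ o with tl o = π n, f (st n o) := by
  choose S hS using fun o => exS (fun n => tl o = π n) (st · o) fun a ha b hb e => by
    rw [← h2 a o ha, ← h2 b o hb]; exact congrArg (st · _) e
  refine ⟨∑ o, S o, fun f n => ?_⟩
  rw [ContinuousLinearMap.sum_apply, lp.coeFn_sum, Finset.sum_apply, sum_filter]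
  simp only [hS]

lemma exF {A : lp (fun _ : N => ℂ) 2 →L[ℂ] lp (fun _ : N => ℂ) 2}
    (hA : ∀ f n, A f n = ∑ o with tl o = π n, f (st n o)) (z : N)
    (hc : ∀ P : N → Prop, P z → (∀ n o, tl o = π n → P (st n o) → P n) → ∀ n, P n) {x : ℝ}
    (hx : spectralRadius ℂ A < ENNReal.ofReal x) :
    ∃ f : N → ℝ, (∀ n, 0 < f n) ∧ ∀ n, ∑ o with tl o = π n, f (st n o) < x * f n := by
  classical
  obtain ⟨y, l1, l2⟩ := ENNReal.lt_iff_exists_nnreal_btwn.1 hx
  obtain ⟨u, l3, l4⟩ := ENNReal.lt_iff_exists_nnreal_btwn.1 l1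
  have yx : (y : ℝ) < x := by simpa using (ENNReal.lt_ofReal_iff_toReal_lt (by simp)).1 l2
  have uy : (u : ℝ) < y := by exact_mod_cast l4
  have y0 : (0 : ℝ) < y := u.2.trans_lt uy
  obtain ⟨a, ha⟩ : ∃ a : ℕ → N → ℝ, ∀ k n, a k n = ((A ^ k) (lp.single 2 z 1) n).re :=
    ⟨_, fun _ _ => rfl⟩
  have a1 : ∀ k n, a (k + 1) n = ∑ o with tl o = π n, a k (st n o) := fun k n => by
    simp [ha, pow_succ', hA]
  have a0 : ∀ k n, 0 ≤ a k n := fun k => by
    induction k with
    | zero => intro n; by_cases h : n = z <;> simp [ha, h, lp.single_apply]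
    | succ k ih => exact fun n => a1 k n ▸ sum_nonneg fun _ _ => ih _
  have s : ∀ n, Summable fun k => a k n / y ^ k := fun n => by
    refine .of_norm_bounded_eventually_nat (summable_geometric_of_lt_one
      (div_nonneg u.2 y0.le) ((div_lt_one y0).2 uy)) ?_
    filter_upwards [(spectrum.gelfand_formula A).eventually (gt_mem_nhds l3),
      eventually_gt_atTop 0] with k hk k0
    rw [one_div, ENNReal.rpow_inv_lt_iff (by positivity), ENNReal.rpow_natCast] at hk
    have e : ‖A ^ k‖ ≤ u ^ k := by exact_mod_cast hk.le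
    rw [norm_div, div_pow, norm_pow, Real.norm_of_nonneg y0.le, ha]
    gcongr
    refine (Complex.abs_re_le_norm _).trans ((lp.norm_apply_le_norm (by simp) _ _).trans
      (((A ^ k).le_opNorm _).trans ?_))
    rwa [lp.norm_single (by simp), norm_one, mul_one]
  obtain ⟨f, hf⟩ : ∃ f : N → ℝ, ∀ n, f n = ∑' k, a k n / y ^ k := ⟨_, fun _ => rfl⟩
  have e : ∀ n, y * f n = y * a 0 n + ∑ o with tl o = π n, f (st n o) := fun n => by
    simp only [hf]
    rw [(s n).tsum_eq_zero_add, ← Summable.tsum_finsetSum fun o _ => s _, mul_add, ← tsum_mul_left]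
    simp only [a1, ← sum_div]
    congr 1
    · simp
    · exact tsum_congr fun k => by field_simp; ring
  have f0 : ∀ n, 0 ≤ f n := fun n => hf n ▸ tsum_nonneg fun k => div_nonneg (a0 _ _) (by positivity)
  have p : ∀ n, 0 < f n := hc _ (pos_of_mul_pos_left (b := (y : ℝ)) ?_ y0.le) fun n o h q =>
    pos_of_mul_pos_left (b := (y : ℝ)) ?_ y0.le
  · exact ⟨f, p, fun n => by nlinarith [e n, p n, mul_nonneg y0.le (a0 0 n)]⟩
  · rw [mul_comm, e]
    exact add_pos_of_pos_of_nonneg (by simpa [ha]) (sum_nonneg fun _ _ => f0 _)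
  · rw [mul_comm, e]
    exact add_pos_of_nonneg_of_pos (mul_nonneg y0.le (a0 _ _))
      (sum_pos' (fun _ _ => f0 _) ⟨o, by simpa, q⟩)

end Pool.Agent.H.MP_eaea0b_co
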