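import Pool.Agent.H.MP_eaea0b_co.B
import Pool.Agent.H.MP_eaea0b_co.D
import Pool.Agent.H.MP_eaea0b_co.F

set_option autoImplicit false
open Finset Matrix Equiv Function
open scoped Kronecker

namespace Pool.Agent.H.MP_eaea0b_co

variable {V E : Type} [Fintype V] [DecidableEq V] [Fintype E] [DecidableEq E]

lemma sum_upd {Γ : Type} [Fintype Γ] (e : E) (Φ : (E → Γ) → ℝ) :
    ∑ γ, ∑ g, Φ (update γ e g) = Fintype.card Γ * ∑ γ, Φ γ := by
  rw [← Fintype.sum_prod_type', ← (Involutive.bijective (f := fun p : (E → Γ) × Γ =>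
    (update p.1 e p.2, p.1 e)) fun p => by simp).sum_comp]
  simp [Fintype.sum_prod_type, mul_sum]

lemma hyb {X Γ Γ' : Type} [Fintype Γ] [Fintype Γ'] [Nonempty Γ] [Nonempty Γ'] (π : Γ → X)
    (π' : Γ' → X) (Φ : (E → X) → ℝ) (h : ∀ q e, (Fintype.card Γ : ℝ)⁻¹ * ∑ g, Φ (update q e (π g))
      = (Fintype.card Γ' : ℝ)⁻¹ * ∑ g, Φ (update q e (π' g))) (p : 0 < ∑ γ : E → Γ', Φ (π' ∘ γ)) :
    0 < ∑ γ : E → Γ, Φ (π ∘ γ) := by
  have c : (0 : ℝ) < Fintype.card Γ := by exact_mod_cast Fintype.card_pos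
  have c' : (0 : ℝ) < Fintype.card Γ' := by exact_mod_cast Fintype.card_pos
  have : ∀ T : Finset E, 0 < ∑ γ : E → Γ, ∑ γ' : E → Γ', Φ (T.piecewise (π ∘ γ) (π' ∘ γ')) := by
    intro T
    induction T using Finset.induction_on with
    | empty => simpa [pow_pos c] using p
    | insert e T he ih =>
      have a := sum_upd e fun γ : E → Γ => ∑ γ' : E → Γ',
        Φ ((insert e T).piecewise (π ∘ γ) (π' ∘ γ'))
      have b := fun γ : E → Γ => sum_upd e fun γ' : E → Γ' => Φ (T.piecewise (π ∘ γ) (π' ∘ γ'))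
      have u : ∀ (γ : E → Γ) γ' g, (insert e T).piecewise (π ∘ update γ e g) (π' ∘ γ') =
          update (T.piecewise (π ∘ γ) (π' ∘ γ')) e (π g) := fun γ γ' g => by
        ext i; by_cases k : i = e <;> simp [k, piecewise]
      have v : ∀ (γ : E → Γ) γ' g, T.piecewise (π ∘ γ) (π' ∘ update γ' e g) =
          update (T.piecewise (π ∘ γ) (π' ∘ γ')) e (π' g) := fun γ γ' g => by
        ext i; by_cases k : i = e <;> simp [k, piecewise, he]
      simp only [u, v] at a b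
      rw [← (inv_mul_eq_iff_eq_mul₀ c.ne').2 a, mul_sum]
      refine ih.trans_eq (sum_congr rfl fun γ _ => ?_)
      rw [← (inv_mul_eq_iff_eq_mul₀ c'.ne').2 (b γ), sum_comm (s := univ (α := Γ)), mul_sum,
        mul_sum]
      exact sum_congr rfl fun _ _ => (h _ _).symm
  simpa [← mul_sum, pow_pos c'] using this univ

section
variable {m m' : Type} [Fintype m] [DecidableEq m] [Fintype m'] [DecidableEq m'] (s t : E → V)

def em (m : Type) [DecidableEq m] (v : V) : Matrix (V × m) m ℝ :=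
  of fun p j => if p.1 = v ∧ p.2 = j then 1 else 0

def kr (V : Type) [DecidableEq V] {m a : Type} (X : Matrix m a ℝ) : Matrix (V × m) (V × a) ℝ :=
  (1 : Matrix V V ℝ) ⊗ₖ X

def lf (Q Q' : E → Matrix m m' ℝ) : Matrix (V × m) (V × m') ℝ :=
  ∑ e, (em m (s e) * Q e * (em m' (t e))ᵀ + em m (t e) * Q' e * (em m' (s e))ᵀ)

omit [Fintype V] [DecidableEq E] in
lemma lf_apply (Q Q' : E → Matrix m m' ℝ) (p : V × m) (q : V × m') : lf s t Q Q' p q =
    ∑ e, ((if p.1 = s e ∧ q.1 = t e then Q e p.2 q.2 else 0) +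
      if p.1 = t e ∧ q.1 = s e then Q' e p.2 q.2 else 0) := by
  simp only [lf, Matrix.sum_apply, Matrix.add_apply]
  refine sum_congr rfl fun e _ => ?_
  congr 1 <;> simp [em, mul_apply, ite_and] <;> split_ifs <;> rfl

omit [DecidableEq E] in
lemma lf_conj {a b : Type} [Fintype a] [DecidableEq a] [Fintype b] [DecidableEq b]
    (Q Q' : E → Matrix m m' ℝ) (X : Matrix m a ℝ) (Y : Matrix m' b ℝ) :
    (kr V X)ᵀ * lf s t Q Q' * kr V Y =
      lf s t (fun e => Xᵀ * Q e * Y) fun e => Xᵀ * Q' e * Y := by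
  have k : ∀ v : V, (kr V X)ᵀ * em m v = em a v * Xᵀ := fun v => by
    ext ⟨u, i⟩ j
    simp [em, kr, Matrix.mul_apply, Fintype.sum_prod_type, Matrix.one_apply, ite_and, eq_comm]
  have l : ∀ v : V, (em m' v)ᵀ * (kr V Y) = Y * (em b v)ᵀ := fun v => by
    ext j ⟨u, i⟩
    simp [em, kr, Matrix.mul_apply, Fintype.sum_prod_type, Matrix.one_apply, ite_and]
  simp only [lf, Matrix.mul_sum, Matrix.sum_mul, Matrix.mul_add, Matrix.add_mul,
    Matrix.mul_assoc]
  refine sum_congr rfl fun e _ => ?_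
  rw [l, l, ← Matrix.mul_assoc, k, ← Matrix.mul_assoc _ (em m _), k]
  simp only [Matrix.mul_assoc]
end

variable (s t : E → V) {d : ℕ}

lemma lf_hyb {Γ Γ' : Type} [Fintype Γ] [Fintype Γ'] {π : Γ → Matrix (Fin d) (Fin d) ℝ}
    {π' : Γ' → Matrix (Fin d) (Fin d) ℝ} (h : Rep π) (h' : Rep π') (x : ℝ)
    (p : 0 < ∑ γ : E → Γ', (lf s t (π' ∘ γ) fun e => (π' (γ e))ᵀ).charpoly.eval x) :
    0 < ∑ γ : E → Γ, (lf s t (π ∘ γ) fun e => (π (γ e))ᵀ).charpoly.eval x := by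
  have := h.ne
  have := h'.ne
  refine hyb π π' (fun q => (lf s t q fun e => (q e)ᵀ).charpoly.eval x) (fun q e => ?_) p
  have : ∀ Q : Matrix (Fin d) (Fin d) ℝ, scalar _ x - lf s t (update q e Q) (fun i => (update q e Q i)ᵀ) =
      (scalar _ x - ∑ i ∈ univ.erase e, (em (Fin d) (s i) * q i * (em (Fin d) (t i))ᵀ +
        em (Fin d) (t i) * (q i)ᵀ * (em (Fin d) (s i))ᵀ)) + -em (Fin d) (s e) * Q * (em (Fin d) (t e))ᵀ +
        -em (Fin d) (t e) * Qᵀ * (em (Fin d) (s e))ᵀ := fun Q => by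
    rw [lf, ← add_sum_erase _ _ (mem_univ e), sum_congr rfl fun i hi => by
      rw [update_of_ne (ne_of_mem_erase hi)]]
    simp only [update_self, Matrix.neg_mul]
    abel
  simp only [eval_charpoly, this]
  exact h.eq h' _ _ _ _ _

theorem signed {N : Type} (tl : E × Bool → V) (π : N → V) (hπ : π.Surjective)
    (st : N → E × Bool → N) (f : N → ℝ) (x : ℝ) (f0 : ∀ n, 0 < f n)
    (h1 : ∀ n o, tl o = π n → π (st n o) = tl (rv o))
    (h2 : ∀ n o, tl o = π n → st (st n o) (rv o) = n)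
    (h3 : ∀ n, ∑ o with tl o = π n, f (st n o) < x * f n) :
    0 < ∑ γ : E → (Fin d → ℤˣ) × Perm (Fin d), (lf (fun e => tl (e, true)) (fun e => tl (e, false))
      (sg ∘ γ) fun e => (sg (γ e))ᵀ).charpoly.eval x := by
  rw [← ((prodComm _ _).trans (((Equiv.curry E (Fin d) ℤˣ).prodCongr (Equiv.refl
    (E → Perm (Fin d)))).trans (arrowProdEquivProdArrow _ _ _).symm)).sum_comp,
    Fintype.sum_prod_type]
  refine sum_pos (fun σ _ => ?_) univ_nonempty
  obtain ⟨T, hT⟩ : ∃ T : (E × Fin d) × Bool → V × Fin d, ∀ e j b, T ((e, j), b) =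
    (tl (e, b), if b then j else σ e j) := ⟨fun o => (tl (o.1.1, o.2),
      if o.2 then o.1.2 else σ o.1.1 o.1.2), fun _ _ _ => rfl⟩
  refine (mu_pos T x (Prod.map π id) (hπ.prodMap surjective_id)
    (fun n o => (st n.1 (o.1.1, o.2), (T (rv o)).2)) (f ∘ Prod.fst) (fun _ => f0 _)
    (fun n ⟨⟨e, j⟩, b⟩ h => ?_) (fun n ⟨⟨e, j⟩, b⟩ h => ?_) (fun n => ?_) univ).trans_eq ?_
  · rw [hT] at h
    simp [rv, hT, h1 n.1 (e, b) (congrArg Prod.fst h)]
  · rw [hT] at h
    exact congrArg f (h2 n.1 (e, b) (congrArg Prod.fst h))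
  · refine (h3 n.1).trans_eq' ?_
    simp [sum_filter, Fintype.sum_prod_type, hT, Prod.ext_iff, ite_and, sum_add_distrib,
      ← eq_symm_apply]
  refine sum_congr rfl fun ε _ => ?_
  rw [eval_charpoly]
  congr 1
  ext ⟨u, i⟩ ⟨v, j⟩
  simp only [mat, mem_univ, if_true, of_apply, Matrix.sub_apply, lf_apply, adj,
    Fintype.sum_prod_type, Fintype.sum_bool, rv, hT, sum_add_distrib]
  congr 2 <;> refine sum_congr rfl fun e _ => ?_
  · rw [sum_eq_single i (fun k _ n => by simp [n]) (by simp)]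
    simp [sg, sp, eq_comm, ite_and]
  · rw [sum_eq_single j (fun k _ n => by simp [n]) (by simp)]
    simp [sg, sp, eq_comm, ite_and]
    split_ifs <;> rfl

theorem lifts (ρ : ℝ) (h : ∀ x > ρ, 0 < ∑ γ : E → (Fin d → ℤˣ) × Perm (Fin d),
      (lf s t (sg ∘ γ) fun e => (sg (γ e))ᵀ).charpoly.eval x) :
    ∃ (σ : E → Perm (Fin (d + 1))) (p : Polynomial ℝ), (∀ x > ρ, 0 < p.eval x) ∧
      (lf s t (fun e => (σ e).permMatrix ℝ) fun e => (σ e)⁻¹.permMatrix ℝ).charpoly =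
      (lf s t (fun _ => (1 : Matrix Unit Unit ℝ)) fun _ => 1).charpoly * p := by
  obtain ⟨B, a, b, c⟩ := exB d
  let r : (E → Perm (Fin (d + 1))) →* Perm (E × Fin (d + 1) ⊕ E × Fin (d + 1)) :=
    ⟨⟨fun γ => sumCongr (prodCongrRight γ) (Equiv.refl _), by ext (x | x) <;> rfl⟩,
      fun _ _ => by ext (x | x) <;> rfl⟩
  obtain ⟨L, hL⟩ : ∃ L : Matrix (V × Fin d) (E × Fin (d + 1) ⊕ E × Fin (d + 1)) ℝ, L = fromCols
    (of fun p q => if p.1 = s q.1 then B q.2 p.2 else 0)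
    (of fun p q => if p.1 = t q.1 then B q.2 p.2 else 0) := ⟨_, rfl⟩
  obtain ⟨A, hA⟩ : ∃ A : Matrix (E × Fin (d + 1) ⊕ E × Fin (d + 1))
    (E × Fin (d + 1) ⊕ E × Fin (d + 1)) ℝ, A = fromBlocks 0 1 1 0 := ⟨_, rfl⟩
  have k : ∀ γ, L * A.submatrix (r γ) (r γ) * Lᵀ = lf s t
      (fun e => Bᵀ * (γ e).permMatrix ℝ * B) fun e => (Bᵀ * (γ e).permMatrix ℝ * B)ᵀ := fun γ => by
    ext ⟨u, i⟩ ⟨v, j⟩
    simp only [lf_apply, PEquiv.mul_toMatrix_toPEquiv, mul_submatrix_one, sum_add_distrib]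
    simp [Matrix.mul_apply, hL, hA, r, Matrix.one_apply, Fintype.sum_prod_type, Prod.ext_iff, ite_and,
      ← eq_symm_apply]
    have z : ∀ (p : E → Prop) [DecidablePred p] (g : E → ℝ) x,
        (∑ y, if p y then if y = x then g y else 0 else 0) = if p x then g x else 0 :=
      fun p _ g x => by rw [sum_eq_single x (fun y _ n => by simp [n]) (by simp)]; simp
    simp only [z]
    rw [add_comm]
    congr 1 <;> refine sum_congr rfl fun e _ => ?_ <;> split_ifs <;> try simp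
    rw [← (γ e).symm.sum_comp]
    simp [mul_comm]
  obtain ⟨σ, hσ⟩ := inter (c := Sum.map Prod.fst id) r (fun x y e => by
    rcases x with ⟨f, i⟩ | x <;> rcases y with ⟨f', j⟩ | y <;> simp at e
    · subst e
      refine ⟨Pi.mulSingle f (swap i j), ?_⟩
      ext (⟨g, k⟩ | z)
      · by_cases n : g = f <;> simp [r, n, swap_apply_def]
        split_ifs <;> simp
      · simp [r, swap_apply_def]
    · exact ⟨1, by simp [e]; rfl⟩)
    (by rintro _ (x | x) <;> rfl) L (ρ := ρ) A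
    (by simp [hA, IsSymm, fromBlocks_transpose]) fun x hx => by
      simpa only [k, comp_def] using lf_hyb s t (rep1 a b c) (rep2 d) x (h x hx)
  refine ⟨σ, _, hσ, ?_⟩
  rw [cp_split _ (U := kr V (uu d)) (B := kr V B)
    (by simp [mul_add, add_comm]) ?_ ?_, k, lf_conj, lf_conj]
  · simp [uu_P, uu_uu, Matrix.mul_assoc]
  · rw [kr, kr, ← kroneckerMap_transpose, ← kroneckerMap_transpose, ← mul_kronecker_mul,
      ← mul_kronecker_mul, ← kronecker_add, c]
    simp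
  · rw [lf_conj]; simp [uu_P, a, lf]

end Pool.Agent.H.MP_eaea0b_co
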